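import Pool.Agent.Y998.CN.Tor
import Pool.Agent.TH380.ST.Cyc
import Pool.Agent.Y664.CN.TR
import Pool.Agent.Y641.CN.PB
import Pool.Agent.Y154.CN.PR
import Pool.Agent.Y950.CN.PATH
import Pool.Agent.Y259.CN.CG
import Pool.Agent.Y375.CN.EN

/-!
# Splits and merges of nearest neighbour stirring at late times
-/

set_option autoImplicit false

namespace Q220.SM

open Finset Equiv Pool.Agent.Y998.ST Pool.Agent.Y998.CN
open Pool.Agent.TH380.ST (cyc cyc_change ind ind_of ind_of_not arc)

section gen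

variable {V : Type} [Fintype V] [DecidableEq V]

theorem len_pos (g : Perm V) (v : V) : 0 < cycleLen g v :=
  Pool.Agent.TH380.ST.cycleLen_pos g v

theorem num_eq (g : Perm V) : (numCycles g : ℝ) = ∑ v, 1 / (cycleLen g v : ℝ) := by
  classical
  have hfin : Finite (Quotient (Perm.SameCycle.setoid g)) := Quotient.finite _
  let _ : Fintype (Quotient (Perm.SameCycle.setoid g)) := Fintype.ofFinite _
  unfold numCycles
  rw [Nat.card_eq_fintype_card]
  rw [← Finset.sum_fiberwise (Finset.univ : Finset V)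
    (fun v => Quotient.mk (Perm.SameCycle.setoid g) v)]
  have h1 : ∀ γ : Quotient (Perm.SameCycle.setoid g),
      ∑ v ∈ Finset.univ with Quotient.mk (Perm.SameCycle.setoid g) v = γ,
        1 / (cycleLen g v : ℝ) = 1 := by
    intro γ
    induction γ using Quotient.inductionOn with
    | _ u =>
      have h2 : ∀ v ∈ (Finset.univ.filter fun v => Quotient.mk (Perm.SameCycle.setoid g) v =
          Quotient.mk (Perm.SameCycle.setoid g) u), 1 / (cycleLen g v : ℝ) =
            1 / (cycleLen g u : ℝ) := by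
        intro v hv
        rw [Finset.mem_filter] at hv
        have h3 : g.SameCycle v u := Quotient.exact hv.2
        have h4 : cycleLen g v = cycleLen g u := Pool.Agent.TH380.ST.cycleLen_same h3
        rw [h4]
      rw [Finset.sum_congr rfl h2, Finset.sum_const, nsmul_eq_mul]
      have h5 : (Finset.univ.filter fun v => Quotient.mk (Perm.SameCycle.setoid g) v =
          Quotient.mk (Perm.SameCycle.setoid g) u).card = cycleLen g u := by
        unfold cycleLen
        rw [Nat.card_eq_fintype_card, Fintype.card_subtype]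
        congr 1
        ext v
        simp only [Finset.mem_filter, Finset.mem_univ, true_and]
        constructor
        · intro h; exact (Quotient.exact h : g.SameCycle v u).symm
        · intro h; exact Quotient.sound (h.symm : g.SameCycle v u)
      rw [h5]
      have h6 : (0 : ℝ) < cycleLen g u := by exact_mod_cast len_pos g u
      field_simp
  rw [Finset.sum_congr rfl fun γ _ => h1 γ, Finset.sum_const, Finset.card_univ, nsmul_eq_mul,
    mul_one]

theorem abs_cyc_le (φ : ℕ → ℝ) (hφ : ∀ l, |φ l| ≤ 1) (g : Perm V) :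
    |cyc φ g| ≤ numCycles g := by
  rw [num_eq]
  unfold cyc
  refine (Finset.abs_sum_le_sum_abs _ _).trans (Finset.sum_le_sum fun v _ => ?_)
  have h1 : (0 : ℝ) < cycleLen g v := by exact_mod_cast len_pos g v
  have h2 : (0 : ℝ) < (Pool.Agent.TH380.ST.cycleLen g v : ℝ) := h1
  rw [abs_div, abs_of_pos h2]
  exact div_le_div_of_nonneg_right (hφ _) h2.le

theorem cyc_one (g : Perm V) : cyc (fun _ => 1) g = numCycles g := by
  rw [num_eq]; rfl

theorem exp_cont (J : V → V → ℝ) (F : Perm V → ℝ) : Continuous fun t => stirExp J t F :=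
  continuous_iff_continuousAt.2 fun t => (exp_deriv J t F).continuousAt

theorem exp_sub (J : V → V → ℝ) (t : ℝ) (F G : Perm V → ℝ) :
    stirExp J t F - stirExp J t G = stirExp J t (fun g => F g - G g) := by
  unfold stirExp
  rw [← Finset.sum_sub_distrib]
  refine Finset.sum_congr rfl fun g _ => ?_
  ring

theorem dynkin (J : V → V → ℝ) (F : Perm V → ℝ) (a b : ℝ) :
    ∫ s in a..b, ∑ x, ∑ y, J x y / 2 * stirExp J s (fun g => F (swap x y * g) - F g) =
      stirExp J b F - stirExp J a F := by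
  have h1 : ∀ s : ℝ, ∑ x, ∑ y, J x y / 2 * stirExp J s (fun g => F (swap x y * g) - F g) =
      ∑ x, ∑ y, J x y / 2 * (stirExp J s (fun g => F (swap x y * g)) - stirExp J s F) := by
    intro s
    refine Finset.sum_congr rfl fun x _ => Finset.sum_congr rfl fun y _ => ?_
    rw [exp_sub]
  have hc : Continuous fun s : ℝ =>
      ∑ x, ∑ y, J x y / 2 * stirExp J s (fun g => F (swap x y * g) - F g) := by
    refine continuous_finsetSum _ fun x _ => continuous_finsetSum _ fun y _ => ?_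
    exact continuous_const.mul (exp_cont J _)
  have hd : ∀ s : ℝ, HasDerivAt (fun u => stirExp J u F)
      (∑ x, ∑ y, J x y / 2 * stirExp J s (fun g => F (swap x y * g) - F g)) s := by
    intro s
    rw [h1]
    exact exp_deriv J s F
  exact intervalIntegral.integral_eq_sub_of_hasDerivAt (fun s _ => hd s)
    (hc.intervalIntegrable a b)

/-- change of an additive functional -/
noncomputable def chg (φ : ℕ → ℝ) (g : Perm V) (x y : V) : ℝ :=
  ind (g.SameCycle x y) * (φ (arc g x y) + φ (arc g y x) - φ (cycleLen g x)) -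
    ind (¬ g.SameCycle x y) * (φ (cycleLen g x) + φ (cycleLen g y) -
      φ (cycleLen g x + cycleLen g y))

theorem dynkin_cyc (J : V → V → ℝ) (hJ : ∀ x, J x x = 0) (φ : ℕ → ℝ) (a b : ℝ) :
    ∫ s in a..b, ∑ x, ∑ y, J x y / 2 * stirExp J s (fun g => chg φ g x y) =
      stirExp J b (cyc φ) - stirExp J a (cyc φ) := by
  rw [← dynkin]
  refine intervalIntegral.integral_congr fun s _ => ?_
  refine Finset.sum_congr rfl fun x _ => Finset.sum_congr rfl fun y _ => ?_
  by_cases hxy : x = y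
  · subst hxy
    rw [hJ]; simp
  · congr 2
    funext g
    exact (cyc_change φ g hxy).symm

theorem abs_exp_cyc {J : V → V → ℝ} (hJ : ∀ x y, 0 ≤ J x y) {t : ℝ} (ht : 0 ≤ t) (φ : ℕ → ℝ)
    (hφ : ∀ l, |φ l| ≤ 1) : |stirExp J t (cyc φ)| ≤ stirExp J t (fun g => (numCycles g : ℝ)) := by
  unfold stirExp
  refine (Finset.abs_sum_le_sum_abs _ _).trans (Finset.sum_le_sum fun g _ => ?_)
  rw [abs_mul, abs_of_nonneg (law_nonneg hJ ht g)]
  exact mul_le_mul_of_nonneg_left (abs_cyc_le φ hφ g) (law_nonneg hJ ht g)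

end gen

section fn

/-- the rate function -/
noncomputable def hh (p t : ℝ) : ℝ := (Real.log t / t) ^ p * Real.log t

theorem log_pos2 {t : ℝ} (ht : 2 ≤ t) : 0 < Real.log t := Real.log_pos (by linarith)

theorem hh_eq {p a r : ℝ} (ha : 2 ≤ a) (hr : 1 ≤ r) :
    hh p (a * r) = Real.log (a * r) ^ (1 + p) * r ^ (-p) * a ^ (-p) := by
  have ha0 : 0 < a := by linarith
  have hr0 : 0 < r := by linarith
  have har : 2 ≤ a * r := by nlinarith
  have hl := log_pos2 har
  unfold hh
  rw [Real.div_rpow hl.le (by positivity), Real.mul_rpow ha0.le hr0.le, Real.rpow_add hl,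
    Real.rpow_one, Real.rpow_neg hr0.le, Real.rpow_neg ha0.le]
  field_simp

theorem hh_mono {p : ℝ} (hp : 0 < p) : ∃ C : ℝ, 1 ≤ C ∧ ∀ a b : ℝ, 2 ≤ a → a ≤ b →
    hh p b ≤ C * hh p a := by
  obtain ⟨α, hα⟩ : ∃ α : ℝ, α = p / (1 + p) := ⟨_, rfl⟩
  have hα0 : 0 < α := by rw [hα]; positivity
  have hl2 : 0 < Real.log 2 := Real.log_pos (by norm_num)
  obtain ⟨c, hc⟩ : ∃ c : ℝ, c = 1 + 1 / (α * Real.log 2) := ⟨_, rfl⟩
  have hc1 : 1 ≤ c := by
    rw [hc]
    have : 0 < 1 / (α * Real.log 2) := by positivity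
    linarith
  refine ⟨c ^ (1 + p), Real.one_le_rpow hc1 (by positivity), fun a b ha hab => ?_⟩
  have ha0 : 0 < a := by linarith
  obtain ⟨r, hr⟩ : ∃ r : ℝ, r = b / a := ⟨_, rfl⟩
  have hr1 : 1 ≤ r := by rw [hr, one_le_div ha0]; exact hab
  have hb : b = a * r := by rw [hr]; field_simp
  have hr0 : 0 < r := by linarith
  have h1 := hh_eq (p := p) ha hr1
  have h2 := hh_eq (p := p) ha le_rfl
  rw [mul_one, Real.one_rpow, mul_one] at h2
  rw [hb, h1, h2, ← mul_assoc]
  refine mul_le_mul_of_nonneg_right ?_ (Real.rpow_nonneg ha0.le _)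
  have hla := log_pos2 ha
  have h3 : Real.log (a * r) ≤ Real.log a * (c * r ^ α) := by
    rw [Real.log_mul ha0.ne' hr0.ne']
    have h4 : Real.log r ≤ r ^ α / α := Real.log_le_rpow_div hr0.le hα0
    have h5 : Real.log 2 ≤ Real.log a := Real.log_le_log (by norm_num) ha
    have h6 : 1 ≤ r ^ α := Real.one_le_rpow hr1 hα0.le
    have h7 : r ^ α / α ≤ Real.log a * (1 / (α * Real.log 2) * r ^ α) := by
      have h8 : r ^ α / α = Real.log 2 * (1 / (α * Real.log 2) * r ^ α) := by field_simp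
      rw [h8]
      exact mul_le_mul_of_nonneg_right h5 (by positivity)
    calc Real.log a + Real.log r ≤ Real.log a * r ^ α +
          Real.log a * (1 / (α * Real.log 2) * r ^ α) := by
          refine add_le_add ?_ (h4.trans h7)
          nlinarith
      _ = _ := by rw [hc]; ring
  have har : 2 ≤ a * r := by nlinarith
  have h9 := Real.rpow_le_rpow (log_pos2 har).le h3 (by positivity : 0 ≤ 1 + p)
  rw [Real.mul_rpow hla.le (by positivity), Real.mul_rpow (by linarith) (by positivity),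
    ← Real.rpow_mul hr0.le] at h9
  have h10 : α * (1 + p) = p := by rw [hα]; field_simp
  rw [h10] at h9
  refine (mul_le_mul_of_nonneg_right h9 (Real.rpow_nonneg hr0.le _)).trans (le_of_eq ?_)
  rw [Real.rpow_neg hr0.le]
  have : r ^ p ≠ 0 := (Real.rpow_pos_of_pos hr0 _).ne'
  field_simp

theorem hh_small {p : ℝ} (hp : 0 < p) (η : ℝ) (hη : 0 < η) : ∃ K : ℝ, 1 ≤ K ∧
    ∀ a b : ℝ, 2 ≤ a → K * a * Real.log a ^ (1 + 1 / p) ≤ b → a ≤ b ∧ hh p b ≤ η * a ^ (-p) := by
  have hl2 : 0 < Real.log 2 := Real.log_pos (by norm_num)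
  -- the function (log r)^(1+p) r^(-p) tends to zero
  have h0 : ∃ R : ℝ, 1 ≤ R ∧ ∀ r, R ≤ r → Real.log r ^ (1 + p) ≤ η / 2 ^ (1 + p) * r ^ p := by
    have h1 := isLittleO_log_rpow_rpow_atTop (1 + p) hp
    have h2 := h1.def (c := η / 2 ^ (1 + p)) (by positivity)
    rw [Filter.eventually_atTop] at h2
    obtain ⟨R, hR⟩ := h2
    refine ⟨max R 1, le_max_right _ _, fun r hr => ?_⟩
    have hr1 : 1 ≤ r := (le_max_right _ _).trans hr
    have h3 := hR r ((le_max_left _ _).trans hr)
    rw [Real.norm_of_nonneg (Real.rpow_nonneg (Real.log_nonneg hr1) _),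
      Real.norm_of_nonneg (Real.rpow_nonneg (by linarith) _)] at h3
    exact h3
  obtain ⟨R, hR1, hR⟩ := h0
  obtain ⟨q, hq⟩ : ∃ q : ℝ, q = 1 + 1 / p := ⟨_, rfl⟩
  have hq0 : 0 < q := by rw [hq]; positivity
  have hqp : q * p = 1 + p := by rw [hq]; field_simp; ring
  obtain ⟨K₁, hK₁⟩ : ∃ K₁ : ℝ, K₁ = R / Real.log 2 ^ q := ⟨_, rfl⟩
  obtain ⟨K₂, hK₂⟩ : ∃ K₂ : ℝ, K₂ = (2 ^ (1 + p) / η) ^ (1 / p) := ⟨_, rfl⟩
  refine ⟨max 1 (max K₁ K₂), le_max_left _ _, fun a b ha hb => ?_⟩
  obtain ⟨K, hK⟩ : ∃ K : ℝ, K = max 1 (max K₁ K₂) := ⟨_, rfl⟩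
  rw [← hK, ← hq] at hb
  have hKK₁ : K₁ ≤ K := by rw [hK]; exact (le_max_left _ _).trans (le_max_right _ _)
  have hKK₂ : K₂ ≤ K := by rw [hK]; exact (le_max_right _ _).trans (le_max_right _ _)
  have hK1 : 1 ≤ K := by rw [hK]; exact le_max_left _ _
  have hK0 : 0 < K := by linarith
  have ha0 : 0 < a := by linarith
  have hla := log_pos2 ha
  have hlq : 0 < Real.log a ^ q := Real.rpow_pos_of_pos hla _
  obtain ⟨r, hr⟩ : ∃ r : ℝ, r = b / a := ⟨_, rfl⟩
  have hbr : b = a * r := by rw [hr]; field_simp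
  have hrK : K * Real.log a ^ q ≤ r := by
    rw [hr, le_div_iff₀ ha0]
    linarith
  have hrR : R ≤ r := by
    refine le_trans ?_ hrK
    have h5 : Real.log 2 ^ q ≤ Real.log a ^ q :=
      Real.rpow_le_rpow hl2.le (Real.log_le_log (by norm_num) ha) hq0.le
    calc R = K₁ * Real.log 2 ^ q := by
          rw [hK₁]
          have : Real.log 2 ^ q ≠ 0 := (Real.rpow_pos_of_pos hl2 _).ne'
          field_simp
      _ ≤ K * Real.log a ^ q := mul_le_mul hKK₁ h5 (Real.rpow_nonneg hl2.le _) hK0.le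
  have hr1 : 1 ≤ r := hR1.trans hrR
  have hr0 : 0 < r := by linarith
  refine ⟨by rw [hbr]; nlinarith, ?_⟩
  rw [hbr, hh_eq ha hr1]
  refine mul_le_mul_of_nonneg_right ?_ (Real.rpow_nonneg ha0.le _)
  have hrp : 0 < r ^ p := Real.rpow_pos_of_pos hr0 _
  rw [Real.rpow_neg hr0.le, ← div_eq_mul_inv, div_le_iff₀ hrp]
  -- bound the logarithm
  obtain ⟨M, hM⟩ : ∃ M : ℝ, M = max (Real.log a) (Real.log r) := ⟨_, rfl⟩
  have hM0 : 0 < M := by rw [hM]; exact lt_of_lt_of_le hla (le_max_left _ _)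
  have h6 : Real.log (a * r) ≤ 2 * M := by
    rw [Real.log_mul ha0.ne' hr0.ne', hM]
    linarith [le_max_left (Real.log a) (Real.log r), le_max_right (Real.log a) (Real.log r)]
  have har : 2 ≤ a * r := by nlinarith
  have h7 := Real.rpow_le_rpow (log_pos2 har).le h6 (by positivity : 0 ≤ 1 + p)
  rw [Real.mul_rpow (by norm_num) hM0.le] at h7
  refine h7.trans ?_
  have h2p : (0 : ℝ) < 2 ^ (1 + p) := by positivity
  have h8 : M ^ (1 + p) ≤ η / 2 ^ (1 + p) * r ^ p := by
    rcases max_choice (Real.log a) (Real.log r) with h | h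
    · rw [hM, h]
      have h9 : (K * Real.log a ^ q) ^ p ≤ r ^ p :=
        Real.rpow_le_rpow (by positivity) hrK hp.le
      rw [Real.mul_rpow hK0.le hlq.le, ← Real.rpow_mul hla.le, hqp] at h9
      have h10 : 2 ^ (1 + p) / η ≤ K ^ p := by
        have h11 := Real.rpow_le_rpow (by rw [hK₂]; positivity) hKK₂ hp.le
        rw [hK₂, ← Real.rpow_mul (by positivity), one_div, inv_mul_cancel₀ hp.ne',
          Real.rpow_one] at h11
        exact h11
      have h12 := mul_le_mul_of_nonneg_right h10 (Real.rpow_nonneg hla.le (1 + p))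
      have h13 := h12.trans h9
      calc Real.log a ^ (1 + p) = η / 2 ^ (1 + p) * (2 ^ (1 + p) / η * Real.log a ^ (1 + p)) := by
            field_simp
        _ ≤ _ := mul_le_mul_of_nonneg_left h13 (by positivity)
    · rw [hM, h]
      exact hR r hrR
  calc 2 ^ (1 + p) * M ^ (1 + p) ≤ 2 ^ (1 + p) * (η / 2 ^ (1 + p) * r ^ p) :=
        mul_le_mul_of_nonneg_left h8 h2p.le
    _ = η * r ^ p := by field_simp

end fn

end Q220.SM
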