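import Pool.Agent.Y998.LQ.Final
import Pool.Agent.Y804.LQ.SHORT
import Pool.Agent.Y514.LQ.TYP

/-!
# Laws on permutations that change little under transpositions

Versions for a general law of theorems of `Pool.Agent.Y998.LQ` and `Pool.Agent.Y514.LQ` (whose
proofs are followed), and stirring from an arbitrary initial permutation.
-/

set_option autoImplicit false

namespace Q220.SM.Law

open Finset Equiv Filter Topology Pool.Agent.Y998.ST Pool.Agent.Y998.CN Pool.Agent.Y998.LP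
open Pool.Agent.TH268.PD (Cyc cyOf frac top ret ret_spec unif um pdm pdl pdm_close lip_approx)

section gen

variable {V : Type} [Fintype V] [DecidableEq V]

/-- the change of the law `μ` under `h` -/
noncomputable def NM (μ : Perm V → ℝ) (h : Perm V) : ℝ := ∑ g, |μ (h⁻¹ * g) - μ g|

/-- The mean of a function of the induced permutation. -/
theorem ind_mean (μ : Perm V → ℝ) (hμ1 : ∑ g, μ g = 1) {k : ℕ} (b : Fin k → V) (hb : Function.Injective b)
    (η : ℝ) (hη : 0 ≤ η) (h : ∀ i j, NM μ (swap (b i) (b j)) ≤ η) (G : Perm (Fin k) → ℝ)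
    (C : ℝ) (hC : 0 ≤ C) (hG : ∀ π, |G π| ≤ C) :
    |∑ g, μ g * G (ret k b g) - (∑ π, G π) / (k.factorial : ℝ)| ≤ k * (C * η) := by
  classical
  obtain ⟨_, h2, _, _⟩ := ret_spec k b hb
  obtain ⟨P, hP⟩ : ∃ P : Perm (Fin k) → ℝ, P = fun σ =>
    ∑ g, μ g * G (σ⁻¹ * ret k b g) := ⟨_, rfl⟩
  have h3 : ∀ i j : Fin k, i ≠ j → ∀ σ, |P σ - P (swap i j * σ)| ≤ C * η := by
    intro i j _ σ
    have e1 : P (swap i j * σ) = ∑ g, μ ((swap (b i) (b j))⁻¹ * g) *
        G (σ⁻¹ * ret k b g) := by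
      rw [hP]
      beta_reduce
      rw [← Equiv.sum_comp (Equiv.mulLeft (swap (b i) (b j)))⁻¹]
      refine Finset.sum_congr rfl fun g _ => ?_
      have e3 : ((Equiv.mulLeft (swap (b i) (b j)))⁻¹ : Perm (Perm V)) g =
          (swap (b i) (b j))⁻¹ * g := rfl
      rw [e3]
      congr 2
      rw [swap_inv, h2, mul_inv_rev, swap_inv, ← mul_assoc, mul_assoc σ⁻¹, swap_mul_self,
        mul_one]
    rw [e1, hP]
    beta_reduce
    rw [← Finset.sum_sub_distrib]
    refine (Finset.abs_sum_le_sum_abs _ _).trans ?_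
    refine le_trans ?_ (mul_le_mul_of_nonneg_left (h i j) hC)
    unfold NM
    rw [Finset.mul_sum]
    refine Finset.sum_le_sum fun g _ => ?_
    rw [← sub_mul, abs_mul, abs_sub_comm, mul_comm]
    exact mul_le_mul_of_nonneg_right (hG _) (abs_nonneg _)
  have h4 := unif k P (C * η) (by positivity) h3 1
  have e1 : P 1 = ∑ g, μ g * G (ret k b g) := by
    rw [hP]
    simp
  have e2 : ∑ σ, P σ = ∑ π, G π := by
    rw [hP]
    beta_reduce
    rw [Finset.sum_comm]
    have e3 : ∀ g : Perm V, ∑ σ : Perm (Fin k), μ g * G (σ⁻¹ * ret k b g) =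
        μ g * ∑ π, G π := by
      intro g
      rw [← Finset.mul_sum]
      congr 1
      rw [← Equiv.sum_comp ((Equiv.inv (Perm (Fin k))).trans (Equiv.mulRight (ret k b g))) G]
      rfl
    rw [Finset.sum_congr rfl fun g _ => e3 g, ← Finset.sum_mul, hμ1, one_mul]
  rw [e1, e2] at h4
  exact h4

/-- the ordered fractions of a set with nearly exchangeable points -/
theorem set_mean2 (μ : Perm V → ℝ) (hμ0 : ∀ g, 0 ≤ μ g) (hμ1 : ∑ g, μ g = 1) (B : Finset V)
    (k : ℕ) (hk : 0 < k) (hB : 0 < B.card) (η : ℝ) (hη : 0 ≤ η)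
    (h : ∀ x ∈ B, ∀ y ∈ B, NM μ (swap x y) ≤ η) (m : ℕ) (f : (Fin m → ℝ) → ℝ) (C Λ : ℝ)
    (hΛ : 0 ≤ Λ) (hC : ∀ u, |f u| ≤ C)
    (hf : ∀ (u v : Fin m → ℝ) (e : ℝ), 0 ≤ e → (∀ i, |u i - v i| ≤ e) → |f u - f v| ≤ Λ * e) :
    |∑ g, μ g * f (fun i => top (bfrac B g) i) - um k f| ≤
      Λ / Real.sqrt k + 2 * (C * (k ^ 2 / B.card)) + k * (C * η) := by
  classical
  have hC0 : 0 ≤ C := (abs_nonneg _).trans (hC (fun _ => 0))
  obtain ⟨n, hn⟩ : ∃ n : ℝ, n = (B.card : ℝ) := ⟨_, rfl⟩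
  have hn0 : 0 < n := by rw [hn]; exact_mod_cast hB
  obtain ⟨F, hF⟩ : ∃ F : Perm (Fin k) → ℝ, F = fun π => f (fun i => top (frac π) i) := ⟨_, rfl⟩
  have hFC : ∀ π, |F π| ≤ C := fun π => by rw [hF]; exact hC _
  obtain ⟨S, hS⟩ : ∃ S, S = (Fintype.piFinset (fun _ : Fin k => B)).filter Function.Injective :=
    ⟨_, rfl⟩
  have hScard : |(S.card : ℝ) - n ^ k| ≤ (k : ℝ) ^ 2 * n ^ (k - 1) := by
    rw [hS, hn]
    exact card_inj B k hk hB
  have hSle : (S.card : ℝ) ≤ n ^ k := by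
    have h1 : S.card ≤ (Fintype.piFinset (fun _ : Fin k => B)).card := by
      rw [hS]; exact Finset.card_filter_le _ _
    rw [Fintype.card_piFinset_const] at h1
    rw [hn]
    exact_mod_cast h1
  obtain ⟨T, hT⟩ : ∃ T, T = ∑ g, μ g * f (fun i => top (bfrac B g) i) := ⟨_, rfl⟩
  have h1 : |∑ b ∈ S, ∑ g, μ g * F (ret k b g) - n ^ k * T| ≤
      n ^ k * (Λ / Real.sqrt k) + C * ((k : ℝ) ^ 2 * n ^ (k - 1)) := by
    have e1 : ∑ b ∈ S, ∑ g, μ g * F (ret k b g) - n ^ k * T =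
        ∑ g, μ g * ((∑ b ∈ Fintype.piFinset (fun _ : Fin k => B),
          if Function.Injective b then F (ret k b g) else 0) -
            n ^ k * f (fun i => top (bfrac B g) i)) := by
      rw [Finset.sum_comm, hT, Finset.mul_sum, ← Finset.sum_sub_distrib]
      refine Finset.sum_congr rfl fun g _ => ?_
      rw [hS, Finset.sum_filter, mul_sub, Finset.mul_sum]
      congr 1
      · refine Finset.sum_congr rfl fun b _ => ?_
        rw [mul_ite, mul_zero]
      · ring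
    rw [e1]
    refine (Finset.abs_sum_le_sum_abs _ _).trans ?_
    have h2 : ∀ g : Perm V, |(∑ b ∈ Fintype.piFinset (fun _ : Fin k => B),
          if Function.Injective b then F (ret k b g) else 0) -
            n ^ k * f (fun i => top (bfrac B g) i)| ≤
          n ^ k * (Λ / Real.sqrt k) + C * ((k : ℝ) ^ 2 * n ^ (k - 1)) := by
      intro g
      have h3 := Pool.Agent.Y259.LP.t_SAMP V B k hk hB g (fun b => ret k b g)
        (fun b hb => (ret_spec k b hb).2.2.2 g) m f C Λ hΛ hC hf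
      rw [hn, hF]
      convert h3 using 4
    have h4 : ∀ g : Perm V, |μ g * ((∑ b ∈ Fintype.piFinset (fun _ : Fin k => B),
          if Function.Injective b then F (ret k b g) else 0) -
            n ^ k * f (fun i => top (bfrac B g) i))| ≤ μ g *
          (n ^ k * (Λ / Real.sqrt k) + C * ((k : ℝ) ^ 2 * n ^ (k - 1))) := by
      intro g
      rw [abs_mul, abs_of_nonneg (hμ0 g)]
      exact mul_le_mul_of_nonneg_left (h2 g) (hμ0 g)
    refine (Finset.sum_le_sum fun g _ => h4 g).trans (le_of_eq ?_)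
    rw [← Finset.sum_mul, hμ1, one_mul]
  have hum : um k f = (∑ π, F π) / (k.factorial : ℝ) := by rw [hF]; rfl
  have h2 : |∑ b ∈ S, ∑ g, μ g * F (ret k b g) - S.card * um k f| ≤
      S.card * (k * (C * η)) := by
    rw [hum, ← nsmul_eq_mul, ← nsmul_eq_mul, ← Finset.sum_const, ← Finset.sum_const,
      ← Finset.sum_sub_distrib]
    refine (Finset.abs_sum_le_sum_abs _ _).trans (Finset.sum_le_sum fun b hb => ?_)
    rw [hS, Finset.mem_filter, Fintype.mem_piFinset] at hb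
    exact ind_mean μ hμ1 b hb.2 η hη (fun i j => h _ (hb.1 i) _ (hb.1 j)) F C hC0 hFC
  have humC : |um k f| ≤ C := by
    have hfac : (0 : ℝ) < (k.factorial : ℝ) := by exact_mod_cast k.factorial_pos
    rw [hum, abs_div, abs_of_pos hfac, div_le_iff₀ hfac]
    refine (Finset.abs_sum_le_sum_abs _ _).trans ?_
    refine (Finset.sum_le_sum fun σ _ => hFC σ).trans (le_of_eq ?_)
    rw [Finset.sum_const, Finset.card_univ, Fintype.card_perm, Fintype.card_fin, nsmul_eq_mul,
      mul_comm]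
  have h3 : |(S.card : ℝ) * um k f - n ^ k * um k f| ≤ C * ((k : ℝ) ^ 2 * n ^ (k - 1)) := by
    rw [← sub_mul, abs_mul, mul_comm]
    exact mul_le_mul humC hScard (abs_nonneg _) hC0
  have hX0 : 0 ≤ (k : ℝ) * (C * η) := by positivity
  have h4 : n ^ k * |T - um k f| ≤ n ^ k * (Λ / Real.sqrt k) + 2 * (C * ((k : ℝ) ^ 2 *
      n ^ (k - 1))) + n ^ k * (k * (C * η)) := by
    have h5 : n ^ k * |T - um k f| = |n ^ k * T - n ^ k * um k f| := by
      rw [← mul_sub, abs_mul, abs_of_pos (pow_pos hn0 k)]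
    rw [h5]
    have h6 := mul_le_mul_of_nonneg_right hSle hX0
    rw [abs_le] at h1 h2 h3 ⊢
    constructor <;> linarith [h1.1, h1.2, h2.1, h2.2, h3.1, h3.2]
  have hnk : n ^ k = n ^ (k - 1) * n := by
    rw [← pow_succ]
    congr 1
    omega
  have hnk0 : 0 < n ^ k := pow_pos hn0 k
  have h5 : n ^ k * (Λ / Real.sqrt k) + 2 * (C * ((k : ℝ) ^ 2 *
      n ^ (k - 1))) + n ^ k * (k * (C * η)) = n ^ k * (Λ / Real.sqrt k +
        2 * (C * (k ^ 2 / n)) + k * (C * η)) := by
    rw [hnk]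
    field_simp
  rw [h5] at h4
  have h6 := le_of_mul_le_mul_left h4 hnk0
  rw [← hT, ← hn]
  exact h6


end gen

/-- The Poisson-Dirichlet law, for any rates: sets with nearly exchangeable points. -/
theorem pd_gen (m : ℕ) (f : (Fin m → ℝ) → ℝ) (hfc : Continuous f) (C : ℝ)
    (hC : ∀ u, |f u| ≤ C) (ε : ℝ) (hε : 0 < ε) : ∃ δ : ℝ, 0 < δ ∧ ∃ N₀ : ℕ, 0 < N₀ ∧
    ∀ (V : Type) [Fintype V] [DecidableEq V] (μ : Perm V → ℝ), (∀ g, 0 ≤ μ g) → ∑ g, μ g = 1 →
    ∀ B : Finset V, N₀ ≤ B.card → (∀ x ∈ B, ∀ y ∈ B, NM μ (swap x y) ≤ δ) →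
    |∑ g, μ g * f (fun i => top (bfrac B g) i) - pdm f| ≤ ε := by
  classical
  have hC0 : 0 ≤ C := (abs_nonneg _).trans (hC (fun _ => 0))
  obtain ⟨Λ, h, hΛ, hhc, hhC, hhL, hfh⟩ := lip_approx m f hfc C hC (ε / 4) (by positivity)
  have h1 := Pool.Agent.TH268.PD.Unif.lim_um pdl hhc hhC
  rw [Metric.tendsto_atTop] at h1
  obtain ⟨k₀, hk₀⟩ := h1 (ε / 8) (by positivity)
  obtain ⟨k₁, hk₁⟩ := exists_nat_gt ((8 * (Λ + 1) / ε) ^ 2)
  obtain ⟨k, hk⟩ : ∃ k, k = max (max k₀ k₁) 1 := ⟨_, rfl⟩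
  have hk1 : 1 ≤ k := by rw [hk]; exact le_max_right _ _
  have hkk0 : k₀ ≤ k := by rw [hk]; exact (le_max_left _ _).trans (le_max_left _ _)
  have hkk1 : k₁ ≤ k := by rw [hk]; exact (le_max_right _ _).trans (le_max_left _ _)
  have hkR : (1 : ℝ) ≤ k := by exact_mod_cast hk1
  have hsq : 0 < Real.sqrt k := Real.sqrt_pos.2 (by linarith)
  have e1 : Λ / Real.sqrt k ≤ ε / 8 := by
    have h2 : 8 * (Λ + 1) / ε ≤ Real.sqrt k := by
      apply Real.le_sqrt_of_sq_le
      have : (k₁ : ℝ) ≤ k := by exact_mod_cast hkk1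
      linarith
    rw [div_le_iff₀ hε] at h2
    rw [div_le_iff₀ hsq]
    nlinarith
  have e2 : |um k h - pdm h| ≤ ε / 8 := by
    have := hk₀ k hkk0
    rw [Real.dist_eq] at this
    exact this.le
  obtain ⟨N, hN⟩ := exists_nat_gt (16 * (C * k ^ 2) / ε)
  refine ⟨ε / (8 * (k * (C + 1))), by positivity, N + 1, by omega, ?_⟩
  intro V _ _ μ hμ0 hμ1 B hB hη
  have hB0 : 0 < B.card := by omega
  have hBR : (0 : ℝ) < B.card := by exact_mod_cast hB0
  have hNB : (N : ℝ) ≤ B.card := by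
    have : N ≤ B.card := by omega
    exact_mod_cast this
  have e3 := set_mean2 μ hμ0 hμ1 B k (by omega) hB0 (ε / (8 * (k * (C + 1)))) (by positivity) hη m h C Λ
    hΛ hhC hhL
  have e4 : 2 * (C * (k ^ 2 / B.card)) ≤ ε / 8 := by
    have h2 : 16 * (C * k ^ 2) ≤ ε * B.card := by
      rw [div_lt_iff₀ hε] at hN
      nlinarith
    have h3 : 2 * (C * ((k : ℝ) ^ 2 / B.card)) = 2 * (C * k ^ 2) / B.card := by ring
    rw [h3, div_le_iff₀ hBR]
    linarith
  have e5 : k * (C * (ε / (8 * (k * (C + 1))))) ≤ ε / 8 := by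
    have h2 : k * (C * (ε / (8 * (k * (C + 1))))) = ε / 8 * (C / (C + 1)) := by
      have : (k : ℝ) ≠ 0 := by positivity
      field_simp
    rw [h2]
    refine mul_le_of_le_one_right (by positivity) ?_
    rw [div_le_one (by positivity)]
    linarith
  have e6 : |∑ g, μ g * f (fun i => top (bfrac B g) i) -
      ∑ g, μ g * h (fun i => top (bfrac B g) i)| ≤ ε / 4 := by
    rw [← Finset.sum_sub_distrib]
    refine (Finset.abs_sum_le_sum_abs _ _).trans ?_
    have h2 : ∀ g : Perm V, |μ g * f (fun i => top (bfrac B g) i) -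
        μ g * h (fun i => top (bfrac B g) i)| ≤ μ g * (ε / 4) := by
      intro g
      rw [← mul_sub, abs_mul, abs_of_nonneg (hμ0 g)]
      have hfin : Finite (Cyc g) := Quotient.finite _
      exact mul_le_mul_of_nonneg_left (hfh _ fun i =>
        ⟨Pool.Agent.TH268.PD.top_nonneg _ (Pool.Agent.Y998.LQ.bfrac_nonneg B g) i,
          Pool.Agent.TH268.PD.top_le_one _ (Pool.Agent.Y998.LQ.bfrac_nonneg B g) (Pool.Agent.Y998.LQ.bfrac_le_one B g) i⟩)
        (hμ0 g)
    refine (Finset.sum_le_sum fun g _ => h2 g).trans (le_of_eq ?_)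
    rw [← Finset.sum_mul, hμ1, one_mul]
  have e7 : |pdm f - pdm h| ≤ ε / 4 := by
    have := pdm_close pdl m f h hfc hhc C hC hhC (ε / 4) hfh 1 zero_le_one le_rfl
    simpa only [one_mul] using this
  rw [abs_le] at e2 e3 e6 e7 ⊢
  constructor <;> linarith [e2.1, e2.2, e3.1, e3.2, e6.1, e6.2, e7.1, e7.2]


section typ

variable {V : Type} [Fintype V] [DecidableEq V]

theorem mean_le_one (μ : Perm V → ℝ) (hμ0 : ∀ g, 0 ≤ μ g) (hμ1 : ∑ g, μ g = 1) (v : V) (K : ℕ) :
    ∑ g, μ g * (if cycleLen g v ≤ K then 1 else 0) ≤ 1 := by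
  refine le_trans (sum_le_sum fun g _ => ?_) (le_of_eq hμ1)
  have h := hμ0 g
  split_ifs <;> linarith

theorem mean_zero (μ : Perm V → ℝ) (v : V) :
    ∑ g, μ g * (if cycleLen g v ≤ 0 then (1 : ℝ) else 0) = 0 := by
  refine sum_eq_zero fun g _ => ?_
  have h : ¬ cycleLen g v ≤ 0 := by
    unfold cycleLen
    rw [not_le]
    have : Nonempty {w : V // g.SameCycle v w} := ⟨⟨v, Perm.SameCycle.refl g v⟩⟩
    exact Nat.card_pos
  rw [if_neg h, mul_zero]

theorem short (μ : Perm V → ℝ) (hμ0 : ∀ g, 0 ≤ μ g) (hμ1 : ∑ g, μ g = 1) (v : V) (K n k : ℕ)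
    (hK : 2 * K ≤ n) (e : Fin k × Fin n → V) (he : Function.Injective e) (hv : ∀ p, e p ≠ v)
    (η : ℝ) (hη0 : 0 ≤ η) (hη : ∀ p, NM μ (swap v (e p)) ≤ η) :
    ∑ g, μ g * (if cycleLen g v ≤ K then 1 else 0) ≤ 2 * (1 / ((k : ℝ) + 1) + η) := by
  unfold cycleLen
  exact Pool.Agent.Y804.LQ.gen μ hμ0 hμ1 v K n k hK e he hv η hη0 hη
    (fun b g => ret (k + 1) b g)
    (fun b hb g i j => (ret_spec (k + 1) b hb).2.1 g i j)
    (fun b hb g i j => (ret_spec (k + 1) b hb).2.2.2 g i j)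

end typ

theorem typ (d : ℕ) (hd : 1 ≤ d) (C0 : ℝ) (hC0 : 0 < C0) (L : ℕ) [NeZero L] (hL : 3 ≤ L) (t : ℝ)
    (ht : 0 < t) (μ : Perm (Fin d → ZMod L) → ℝ) (hμ0 : ∀ g, 0 ≤ μ g) (hμ1 : ∑ g, μ g = 1)
    (hD : ∀ x y : Fin d → ZMod L, NM μ (swap x y) ≤ C0 * tdist x y / Real.sqrt t)
    (v : Fin d → ZMod L) (K : ℕ) :
    ∑ g, μ g * (if cycleLen g v ≤ K then 1 else 0) ≤
      (4 + 8 * C0 * d) * ((K : ℝ) / min t ((L : ℝ) ^ 2) ^ ((d : ℝ) / 2)) ^ (1 / ((d : ℝ) + 1)) := by
  have hL0 : (0 : ℝ) < L := by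
    have : 0 < L := by omega
    exact_mod_cast this
  set T : ℝ := min t ((L : ℝ) ^ 2) with hT
  have hT0 : 0 < T := lt_min ht (by positivity)
  rcases Nat.eq_zero_or_pos K with hK | hK
  · subst hK
    rw [mean_zero]
    positivity
  have hKr : (1 : ℝ) ≤ K := by exact_mod_cast hK
  have hd1 : (1 : ℝ) ≤ d := by exact_mod_cast hd
  set s : ℝ := Real.sqrt T with hs
  have hs0 : 0 < s := Real.sqrt_pos.2 hT0
  have hTs : T ^ ((d : ℝ) / 2) = s ^ d := by
    rw [hs, Real.sqrt_eq_rpow, ← Real.rpow_natCast, ← Real.rpow_mul hT0.le]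
    congr 1
    ring
  rw [hTs]
  have hsd : 0 < s ^ d := pow_pos hs0 d
  set α : ℝ := (K : ℝ) / s ^ d with hα
  have hα0 : 0 < α := by positivity
  set y : ℝ := α ^ (1 / ((d : ℝ) + 1)) with hy
  have hy0 : 0 < y := Real.rpow_pos_of_pos hα0 _
  have hyp : y ^ (d + 1) = α := by
    rw [hy, ← Real.rpow_natCast, ← Real.rpow_mul hα0.le]
    push_cast
    rw [one_div, inv_mul_cancel₀ (by positivity), Real.rpow_one]
  have hKe : y ^ (d + 1) * s ^ d = K := by
    rw [hyp, hα]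
    field_simp
  have hCd : 0 ≤ C0 * d := by positivity
  rcases le_or_gt (1 / 4) y with h4 | h4
  · refine (mean_le_one μ hμ0 hμ1 v K).trans ?_
    nlinarith
  -- the main case
  have hy1 : y < 1 := by linarith
  have hyd1 : y ^ (d + 1) < 1 := pow_lt_one₀ hy0.le hy1 (by omega)
  have hs1 : 1 ≤ s := by
    by_contra hcon
    push Not at hcon
    have h1 : s ^ d ≤ 1 := pow_le_one₀ hs0.le hcon.le
    nlinarith
  set u : ℝ := y * s with hu
  have hu0 : 0 < u := by positivity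
  have hup : u ^ (d + 1) = K * s := by
    rw [hu, mul_pow, pow_succ s, ← mul_assoc, hKe]
  have hu1 : 1 ≤ u := by
    by_contra hcon
    push Not at hcon
    have h1 : u ^ (d + 1) < 1 := pow_lt_one₀ hu0.le hcon (by omega)
    nlinarith
  have hsL : s ≤ L := by
    rw [hs]
    refine (Real.sqrt_le_sqrt (min_le_right _ _)).trans (le_of_eq ?_)
    exact Real.sqrt_sq hL0.le
  have hst : s ≤ Real.sqrt t := Real.sqrt_le_sqrt (min_le_left _ _)
  have ht0 : 0 < Real.sqrt t := Real.sqrt_pos.2 ht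
  set m : ℕ := ⌊4 * u⌋₊ with hm
  have hm1 : (m : ℝ) ≤ 4 * u := Nat.floor_le (by positivity)
  have hm2 : 4 * u < m + 1 := Nat.lt_floor_add_one _
  have hm3 : 3 * u ≤ m := by linarith
  have hmpos : 1 ≤ m := by
    have : (1 : ℝ) ≤ m := by linarith
    exact_mod_cast this
  have hmL : m ≤ L := by
    have h1 : 4 * u ≤ s := by rw [hu]; nlinarith
    have : (m : ℝ) ≤ L := by linarith
    exact_mod_cast this
  set k : ℕ := ⌊1 / y⌋₊ with hk
  have hk1 : (k : ℝ) ≤ 1 / y := Nat.floor_le (by positivity)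
  have hk2 : 1 / y < k + 1 := Nat.lt_floor_add_one _
  have hk3 : 1 / ((k : ℝ) + 1) ≤ y := by
    rw [div_le_iff₀ (by positivity)]
    rw [div_lt_iff₀ hy0] at hk2
    linarith
  obtain ⟨Q, hQ, hvQ, hQd⟩ := Pool.Agent.Y514.LQ.box_at d L m hmpos hmL v
  -- the cardinality
  have hud : 1 ≤ u ^ d := one_le_pow₀ hu1
  have hcard : k * (2 * K) + 1 ≤ m ^ d := by
    have h1 : (k : ℝ) * y ≤ 1 := by rwa [le_div_iff₀ hy0] at hk1
    have h2 : (K : ℝ) = u ^ d * y := by
      rw [← hKe, hu, mul_pow, pow_succ]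
      ring
    have h3 : (k : ℝ) * (2 * K) ≤ 2 * u ^ d := by
      rw [h2]
      have h4 : 0 ≤ u ^ d := by positivity
      nlinarith
    have h5 : (3 * u) ^ d ≤ (m : ℝ) ^ d := pow_le_pow_left₀ (by positivity) hm3 d
    have h6 : (3 : ℝ) ≤ 3 ^ d := by
      calc (3 : ℝ) = 3 ^ 1 := by norm_num
        _ ≤ 3 ^ d := pow_le_pow_right₀ (by norm_num) hd
    have h7 : 3 * u ^ d ≤ (3 * u) ^ d := by
      rw [mul_pow (3 : ℝ) u d]
      exact mul_le_mul_of_nonneg_right h6 (by positivity)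
    have h8 : (k : ℝ) * (2 * K) + 1 ≤ (m : ℝ) ^ d := by linarith
    exact_mod_cast h8
  have hcard2 : Fintype.card (Fin k × Fin (2 * K)) ≤ Fintype.card {x // x ∈ Q.erase v} := by
    rw [Fintype.card_prod, Fintype.card_fin, Fintype.card_fin, Fintype.card_coe,
      card_erase_of_mem hvQ, hQ]
    omega
  obtain ⟨e⟩ := Function.Embedding.nonempty_of_card_le hcard2
  have key := short μ hμ0 hμ1 v K (2 * K) k le_rfl
    (fun p => (e p : Fin d → ZMod L)) (fun p q h => e.injective (Subtype.ext h))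
    (fun p => (mem_erase.1 (e p).2).1) (C0 * (d * m) / Real.sqrt t) (by positivity) (by
      intro p
      rw [swap_comm]
      refine (hD _ v).trans ?_
      refine div_le_div_of_nonneg_right ?_ ht0.le
      refine mul_le_mul_of_nonneg_left ?_ hC0.le
      exact_mod_cast hQd _ (mem_erase.1 (e p).2).2)
  refine key.trans ?_
  have hη : C0 * (d * m) / Real.sqrt t ≤ 4 * (C0 * d) * y := by
    rw [div_le_iff₀ ht0]
    have h1 : (m : ℝ) ≤ 4 * y * Real.sqrt t := by
      have h2 : 4 * u ≤ 4 * y * Real.sqrt t := by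
        rw [hu]
        have := mul_le_mul_of_nonneg_left hst hy0.le
        linarith
      linarith
    have h3 := mul_le_mul_of_nonneg_left h1 hCd
    calc C0 * (d * m) = C0 * d * m := by ring
      _ ≤ _ := h3
      _ = _ := by ring
  have : 0 ≤ C0 * d * y := by positivity
  linarith


section start

variable {V : Type} [Fintype V] [DecidableEq V]

/-- the law at time `t` of stirring started from `σ` -/
noncomputable def from_ (J : V → V → ℝ) (t : ℝ) (σ g : Perm V) : ℝ := stirLaw J t (g * σ⁻¹)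

theorem from_nonneg {J : V → V → ℝ} (hJ : ∀ x y, 0 ≤ J x y) {t : ℝ} (ht : 0 ≤ t) (σ g : Perm V) :
    0 ≤ from_ J t σ g := law_nonneg hJ ht _

theorem from_mean (J : V → V → ℝ) (t : ℝ) (σ : Perm V) (F : Perm V → ℝ) :
    ∑ g, from_ J t σ g * F g = stirExp J t (fun g => F (g * σ)) := by
  unfold from_ stirExp
  rw [← Equiv.sum_comp (Equiv.mulRight σ) (fun g => stirLaw J t (g * σ⁻¹) * F g)]
  refine Finset.sum_congr rfl fun g _ => ?_
  rw [Equiv.coe_mulRight, mul_assoc, mul_inv_cancel, mul_one]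

theorem from_sum (J : V → V → ℝ) (t : ℝ) (σ : Perm V) : ∑ g, from_ J t σ g = 1 := by
  have h := from_mean J t σ (fun _ => 1)
  simp only [mul_one] at h
  rw [h]
  unfold stirExp
  simp only [mul_one]
  exact law_sum J t

theorem from_NM (J : V → V → ℝ) (t : ℝ) (σ h : Perm V) : NM (from_ J t σ) h = NN J t h := by
  unfold NM NN from_
  rw [← Equiv.sum_comp (Equiv.mulRight σ)]
  refine Finset.sum_congr rfl fun g _ => ?_
  rw [Equiv.coe_mulRight]
  congr 3
  · group
  · group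

/-- The mean of `F (η (s 1), ..., η (s n))` for stirring `η` with rates `J` started from `σ`, with
`s 1 = τ 0` and `s (j + 1) - s j = τ j`. -/
noncomputable def multiMean (J : V → V → ℝ) : (n : ℕ) → (Fin n → ℝ) → Perm V →
    ((Fin n → Perm V) → ℝ) → ℝ
  | 0, _, _, F => F Fin.elim0
  | n + 1, τ, σ, F => stirExp J (τ 0) (fun g =>
      multiMean J n (fun i => τ i.succ) (g * σ) (fun η => F (Fin.cons (g * σ) η)))

theorem multi_mul (J : V → V → ℝ) (n : ℕ) : ∀ (τ : Fin n → ℝ) (σ : Perm V) (c : ℝ)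
    (F : (Fin n → Perm V) → ℝ),
    multiMean J n τ σ (fun η => c * F η) = c * multiMean J n τ σ F := by
  induction n with
  | zero => intro τ σ c F; rfl
  | succ n ih =>
    intro τ σ c F
    unfold multiMean
    simp only [ih]
    unfold stirExp
    rw [Finset.mul_sum]
    refine Finset.sum_congr rfl fun g _ => ?_
    ring

theorem multi_prod {J : V → V → ℝ} (hJ : ∀ x y, 0 ≤ J x y) (M e : ℝ) (hM : 1 ≤ M) (he : 0 ≤ e)
    (n : ℕ) : ∀ (τ : Fin n → ℝ), (∀ j, 0 ≤ τ j) → ∀ (a : Fin n → Perm V → ℝ) (p : Fin n → ℝ),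
    (∀ j g, |a j g| ≤ M) → (∀ j, |p j| ≤ M) →
    (∀ j σ, |stirExp J (τ j) (fun g => a j (g * σ)) - p j| ≤ e) → ∀ σ : Perm V,
    |multiMean J n τ σ (fun η => ∏ j, a j (η j)) - ∏ j, p j| ≤ n * M ^ n * e := by
  induction n with
  | zero => intro τ _ a p _ _ _ σ; simp [multiMean]
  | succ n ih =>
    intro τ hτ a p ha hp h σ
    have h1 : ∀ g : Perm V, multiMean J n (fun i => τ i.succ) g
        (fun η => ∏ j, a j ((Fin.cons g η : Fin (n + 1) → Perm V) j)) =
        a 0 g * multiMean J n (fun i => τ i.succ) g (fun η => ∏ j, a j.succ (η j)) := by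
      intro g
      rw [← multi_mul]
      congr 1
      funext η
      rw [Fin.prod_univ_succ, Fin.cons_zero]
      congr 1
    have h2 : multiMean J (n + 1) τ σ (fun η => ∏ j, a j (η j)) = stirExp J (τ 0) (fun g =>
        a 0 (g * σ) * multiMean J n (fun i => τ i.succ) (g * σ)
          (fun η => ∏ j, a j.succ (η j))) := by
      rw [multiMean]
      simp only [h1]
    obtain ⟨P, hP⟩ : ∃ P : ℝ, P = ∏ j : Fin n, p j.succ := ⟨_, rfl⟩
    have hPM : |P| ≤ M ^ n := by
      rw [hP, Finset.abs_prod]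
      refine (Finset.prod_le_prod (fun j _ => abs_nonneg _) fun j _ => hp j.succ).trans ?_
      rw [Finset.prod_const, Finset.card_univ, Fintype.card_fin]
    have hR := ih (fun i => τ i.succ) (fun j => hτ j.succ) (fun j => a j.succ)
      (fun j => p j.succ) (fun j => ha j.succ) (fun j => hp j.succ) (fun j => h j.succ)
    rw [h2, Fin.prod_univ_succ, ← hP]
    have h3 : stirExp J (τ 0) (fun g => a 0 (g * σ) * multiMean J n (fun i => τ i.succ) (g * σ)
          (fun η => ∏ j, a j.succ (η j))) - p 0 * P =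
        stirExp J (τ 0) (fun g => a 0 (g * σ) * (multiMean J n (fun i => τ i.succ) (g * σ)
          (fun η => ∏ j, a j.succ (η j)) - P)) +
        P * (stirExp J (τ 0) (fun g => a 0 (g * σ)) - p 0) := by
      unfold stirExp
      rw [mul_sub P, Finset.mul_sum, ← add_sub_assoc, ← Finset.sum_add_distrib]
      congr 1
      · refine Finset.sum_congr rfl fun g _ => ?_
        ring
      · ring
    rw [h3]
    refine (abs_add_le _ _).trans ?_
    have h4 : |stirExp J (τ 0) (fun g => a 0 (g * σ) * (multiMean J n (fun i => τ i.succ) (g * σ)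
          (fun η => ∏ j, a j.succ (η j)) - P))| ≤ M * (n * M ^ n * e) := by
      unfold stirExp
      refine (Finset.abs_sum_le_sum_abs _ _).trans ?_
      have h5 : ∀ g : Perm V, |stirLaw J (τ 0) g * (a 0 (g * σ) *
          (multiMean J n (fun i => τ i.succ) (g * σ) (fun η => ∏ j, a j.succ (η j)) - P))| ≤
          stirLaw J (τ 0) g * (M * (n * M ^ n * e)) := by
        intro g
        rw [abs_mul, abs_mul, abs_of_nonneg (law_nonneg hJ (hτ 0) g)]
        refine mul_le_mul_of_nonneg_left ?_ (law_nonneg hJ (hτ 0) g)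
        refine mul_le_mul (ha 0 _) ?_ (abs_nonneg _) (by linarith)
        have := hR (g * σ)
        rw [← hP] at this
        exact this
      refine (Finset.sum_le_sum fun g _ => h5 g).trans (le_of_eq ?_)
      rw [← Finset.sum_mul, law_sum, one_mul]
    have h6 : |P * (stirExp J (τ 0) (fun g => a 0 (g * σ)) - p 0)| ≤ M ^ n * e := by
      rw [abs_mul]
      exact mul_le_mul hPM (h 0 σ) (abs_nonneg _) (by positivity)
    refine (add_le_add h4 h6).trans ?_
    have h7 : M ^ n * e ≤ M ^ (n + 1) * e :=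
      mul_le_mul_of_nonneg_right (pow_le_pow_right₀ hM (by omega)) he
    push_cast
    calc M * (n * M ^ n * e) + M ^ n * e ≤ n * M ^ (n + 1) * e + M ^ (n + 1) * e := by
          rw [pow_succ]
          rw [pow_succ] at h7
          linarith
      _ = _ := by ring

end start

end Q220.SM.Law
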