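import Pool.Agent.Y858.LR.BAD
import Pool.Agent.Y998.LQ.Walk

/-!
# Typical cycles leave small sets
-/

set_option autoImplicit false

namespace Q220.SM.Wide

open Finset Equiv Pool.Agent.Y998.ST

section gen

variable {V : Type} [Fintype V] [DecidableEq V]

open Classical in
/-- the position after `K` steps of the cycle -/
theorem end_eq (J : V → V → ℝ) (t : ℝ) (K : ℕ) (hK : 0 < K) (z : V) (B : Finset V) :
    stirExp J t (fun g => if (g ^ K) z ∈ B then 1 else 0) =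
      ∑ y : Fin K → V, (if y ⟨K - 1, by omega⟩ ∈ B then UU J K t (pre z y) y else 0) := by
  rw [← Finset.sum_filter]
  unfold UU
  rw [exp_sum]
  congr 1
  funext g
  rw [Finset.sum_filter]
  rw [Finset.sum_eq_single (fun i : Fin K => (g ^ ((i : ℕ) + 1)) z)]
  · have h1 : act g (pre z (fun i : Fin K => (g ^ ((i : ℕ) + 1)) z)) =
        (fun i : Fin K => (g ^ ((i : ℕ) + 1)) z) := by
      rw [act_pre]
      exact fun i => rfl
    rw [if_pos h1]
    simp only [Nat.sub_add_cancel (show 1 ≤ K from hK)]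
  · intro y _ hy
    have h1 : ¬ (act g (pre z y) = y) := by
      intro h
      apply hy
      funext i
      rw [(act_pre g z y).1 h i]
    rw [if_neg h1, ite_self]
  · intro h
    exact absurd (Finset.mem_univ _) h

open Classical in
theorem end_le {J : V → V → ℝ} (hJ : ∀ x y, 0 ≤ J x y) (hs : ∀ x y, J x y = J y x)
    (h0 : ∀ x, J x x = 0) {t : ℝ} (ht : 0 ≤ t) (K : ℕ) (hK : 0 < K) (z : V) (B : Finset V) :
    stirExp J t (fun g => if (g ^ K) z ∈ B then 1 else 0) ≤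
      ∑ b ∈ B, qq J (K * t) z b +
        ∑ y : Fin K → V, |UU J K t (pre z y) y - VV J K t (pre z y) y| := by
  have hVn : ∀ y : Fin K → V, 0 ≤ VV J K t (pre z y) y := fun y => VV_nonneg hJ K ht _ _
  rw [end_eq J t K hK z B]
  have h1 : ∀ y : Fin K → V, (if y ⟨K - 1, by omega⟩ ∈ B then UU J K t (pre z y) y else 0) ≤
      (∑ b ∈ B, (if y ⟨K - 1, by omega⟩ = b then VV J K t (pre z y) y else 0)) +
        |UU J K t (pre z y) y - VV J K t (pre z y) y| := by
    intro y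
    by_cases h : y ⟨K - 1, by omega⟩ ∈ B
    · rw [if_pos h, Finset.sum_ite_eq, if_pos h]
      have h3 := le_abs_self (UU J K t (pre z y) y - VV J K t (pre z y) y)
      linarith
    · rw [if_neg h, Finset.sum_ite_eq, if_neg h, zero_add]
      exact abs_nonneg _
  refine (Finset.sum_le_sum fun y _ => h1 y).trans ?_
  rw [Finset.sum_add_distrib, Finset.sum_comm]
  refine add_le_add (le_of_eq ?_) le_rfl
  refine Finset.sum_congr rfl fun b _ => ?_
  rw [Pool.Agent.Y858.LR.marg hs h0]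
  congr 1
  have h2 : ((K - 1 : ℕ) : ℝ) = (K : ℝ) - 1 := by
    rw [Nat.cast_sub (show 1 ≤ K from hK)]
    simp
  show ((K - 1 : ℕ) : ℝ) * t + t = K * t
  rw [h2]
  ring

open Classical in
/-- the cycle inside a set -/
theorem in_le {J : V → V → ℝ} (hJ : ∀ x y, 0 ≤ J x y) {t : ℝ} (ht : 0 ≤ t) (K : ℕ) (z : V)
    (B : Finset V) :
    stirExp J t (fun g => if ∀ w, g.SameCycle z w → w ∈ B then 1 else 0) ≤
      stirExp J t (fun g => if (g ^ K) z ∈ B then 1 else 0) := by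
  refine exp_mono hJ ht fun g => ?_
  by_cases h : ∀ w, g.SameCycle z w → w ∈ B
  · rw [if_pos h, if_pos (h _ ⟨(K : ℤ), by rw [zpow_natCast]⟩)]
  · rw [if_neg h]
    split_ifs <;> norm_num

end gen

/-- the choice of the number of steps -/
theorem choice (d : ℕ) (hd : 3 ≤ d) (L t κ : ℝ) (hL : 1 ≤ L) (ht : 1 ≤ t) (hκ0 : 0 < κ)
    (hκ1 : κ ≤ 1) : (∃ K : ℕ, 0 < K ∧
      (K : ℝ) * t ^ (1 - (d : ℝ) / 2) + (K : ℝ) ^ 2 * t / L ^ d ≤ 2 * κ ∧
      κ / 2 * min (t ^ ((d : ℝ) / 4)) L ^ 2 ≤ K * t) ∨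
    κ / 2 * min (t ^ ((d : ℝ) / 4)) L ^ 2 ≤ t := by
  have hD : (3 : ℝ) ≤ d := by exact_mod_cast hd
  have ht0 : 0 < t := by linarith
  have hL0 : 0 < L := by linarith
  obtain ⟨R, hR⟩ : ∃ R : ℝ, R = min (t ^ ((d : ℝ) / 4)) L := ⟨_, rfl⟩
  rw [← hR]
  have hR0 : 0 < R := by rw [hR]; exact lt_min (Real.rpow_pos_of_pos ht0 _) hL0
  have hRt : R ≤ t ^ ((d : ℝ) / 4) := by rw [hR]; exact min_le_left _ _
  have hRL : R ≤ L := by rw [hR]; exact min_le_right _ _
  have F1 : R ^ 2 ≤ t ^ ((d : ℝ) / 2) := by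
    refine (pow_le_pow_left₀ hR0.le hRt 2).trans (le_of_eq ?_)
    rw [← Real.rpow_natCast, ← Real.rpow_mul ht0.le]
    congr 1
    push_cast
    ring
  have F2 : R ^ 4 ≤ t * L ^ d := by
    have e1 : R ^ 4 = R ^ (4 / (d : ℝ)) * R ^ (4 - 4 / (d : ℝ)) := by
      rw [← Real.rpow_add hR0, ← Real.rpow_natCast]
      congr 1
      push_cast
      ring
    have e2 : R ^ (4 / (d : ℝ)) ≤ t := by
      have h1 := Real.rpow_le_rpow hR0.le hRt (by positivity : 0 ≤ 4 / (d : ℝ))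
      rw [← Real.rpow_mul ht0.le] at h1
      have h2 : (d : ℝ) / 4 * (4 / (d : ℝ)) = 1 := by field_simp
      rw [h2, Real.rpow_one] at h1
      exact h1
    have hexp : 0 ≤ 4 - 4 / (d : ℝ) := by
      have : 4 / (d : ℝ) ≤ 4 := by
        rw [div_le_iff₀ (by linarith)]
        linarith
      linarith
    have hexp2 : 4 - 4 / (d : ℝ) ≤ d := by
      have h3 : (0 : ℝ) < d := by linarith
      have h4 : (d : ℝ) - (4 - 4 / (d : ℝ)) = ((d : ℝ) - 2) ^ 2 / d := by
        field_simp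
        ring
      have h5 : 0 ≤ ((d : ℝ) - 2) ^ 2 / d := by positivity
      linarith
    have e3 : R ^ (4 - 4 / (d : ℝ)) ≤ L ^ d := by
      have h1 := Real.rpow_le_rpow hR0.le hRL hexp
      have h2 := Real.rpow_le_rpow_of_exponent_le hL hexp2
      rw [Real.rpow_natCast] at h2
      exact h1.trans h2
    rw [e1]
    exact mul_le_mul e2 e3 (Real.rpow_nonneg hR0.le _) ht0.le
  obtain ⟨M, hM⟩ : ∃ M : ℝ, M = min (t ^ ((d : ℝ) / 2 - 1)) (Real.sqrt (L ^ d / t)) := ⟨_, rfl⟩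
  have hM0 : 0 < M := by
    rw [hM]
    exact lt_min (Real.rpow_pos_of_pos ht0 _) (Real.sqrt_pos.2 (by positivity))
  have hMt : R ^ 2 ≤ M * t := by
    rw [hM, min_mul_of_nonneg _ _ ht0.le]
    refine le_min ?_ ?_
    · refine F1.trans (le_of_eq ?_)
      have h1 : t ^ ((d : ℝ) / 2 - 1) * t = t ^ ((d : ℝ) / 2 - 1) * t ^ (1 : ℝ) := by
        rw [Real.rpow_one]
      rw [h1, ← Real.rpow_add ht0]
      congr 1
      ring
    · have h1 : Real.sqrt (L ^ d / t) * t = Real.sqrt (t * L ^ d) := by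
        have h2 : t * L ^ d = (L ^ d / t) * t ^ 2 := by field_simp
        rw [h2, Real.sqrt_mul (by positivity), Real.sqrt_sq ht0.le]
      rw [h1]
      refine Real.le_sqrt_of_sq_le ?_
      rw [← pow_mul]
      exact F2
  have hMt1 : M ≤ t ^ ((d : ℝ) / 2 - 1) := by rw [hM]; exact min_le_left _ _
  have hMs : M ^ 2 ≤ L ^ d / t := by
    have h1 : M ≤ Real.sqrt (L ^ d / t) := by rw [hM]; exact min_le_right _ _
    calc M ^ 2 ≤ Real.sqrt (L ^ d / t) ^ 2 := pow_le_pow_left₀ hM0.le h1 2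
      _ = _ := Real.sq_sqrt (by positivity)
  by_cases hc : 1 ≤ κ * M
  · left
    refine ⟨⌊κ * M⌋₊, Nat.floor_pos.2 hc, ?_, ?_⟩
    · have hK : ((⌊κ * M⌋₊ : ℕ) : ℝ) ≤ κ * M := Nat.floor_le (by positivity)
      have hK0 : (0 : ℝ) ≤ ((⌊κ * M⌋₊ : ℕ) : ℝ) := Nat.cast_nonneg _
      have h1 : ((⌊κ * M⌋₊ : ℕ) : ℝ) * t ^ (1 - (d : ℝ) / 2) ≤ κ := by
        calc _ ≤ κ * M * t ^ (1 - (d : ℝ) / 2) :=
              mul_le_mul_of_nonneg_right hK (Real.rpow_nonneg ht0.le _)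
          _ ≤ κ * t ^ ((d : ℝ) / 2 - 1) * t ^ (1 - (d : ℝ) / 2) :=
              mul_le_mul_of_nonneg_right (mul_le_mul_of_nonneg_left hMt1 hκ0.le)
                (Real.rpow_nonneg ht0.le _)
          _ = κ := by
              rw [mul_assoc, ← Real.rpow_add ht0]
              have : (d : ℝ) / 2 - 1 + (1 - (d : ℝ) / 2) = 0 := by ring
              rw [this, Real.rpow_zero, mul_one]
      have h2 : ((⌊κ * M⌋₊ : ℕ) : ℝ) ^ 2 * t / L ^ d ≤ κ := by
        have h3 : ((⌊κ * M⌋₊ : ℕ) : ℝ) ^ 2 ≤ κ ^ 2 * (L ^ d / t) := by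
          calc _ ≤ (κ * M) ^ 2 := pow_le_pow_left₀ hK0 hK 2
            _ = κ ^ 2 * M ^ 2 := by ring
            _ ≤ _ := mul_le_mul_of_nonneg_left hMs (by positivity)
        rw [div_le_iff₀ (by positivity)]
        calc _ ≤ κ ^ 2 * (L ^ d / t) * t := mul_le_mul_of_nonneg_right h3 ht0.le
          _ = κ ^ 2 * L ^ d := by field_simp
          _ ≤ κ * L ^ d := by
              refine mul_le_mul_of_nonneg_right ?_ (by positivity)
              nlinarith
      linarith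
    · have hK : κ * M < ((⌊κ * M⌋₊ : ℕ) : ℝ) + 1 := Nat.lt_floor_add_one _
      have hK1 : (1 : ℝ) ≤ ((⌊κ * M⌋₊ : ℕ) : ℝ) := by
        exact_mod_cast Nat.floor_pos.2 hc
      have h1 : κ * M / 2 ≤ ((⌊κ * M⌋₊ : ℕ) : ℝ) := by linarith
      calc κ / 2 * R ^ 2 ≤ κ / 2 * (M * t) := mul_le_mul_of_nonneg_left hMt (by positivity)
        _ = κ * M / 2 * t := by ring
        _ ≤ _ := mul_le_mul_of_nonneg_right h1 ht0.le
  · right
    push Not at hc
    calc κ / 2 * R ^ 2 ≤ κ / 2 * (M * t) := mul_le_mul_of_nonneg_left hMt (by positivity)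
      _ = κ * M / 2 * t := by ring
      _ ≤ 1 * t := mul_le_mul_of_nonneg_right (by linarith) ht0.le
      _ = t := one_mul t

end Q220.SM.Wide
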